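import Mathlib

/-!
# MP_c23e02 : the k-th upper chromatic numbers of the real line and of the integers agree

For every `k`, every array size `m` that works for the integers works for the real line:
take a `ℚ`-linear functional `ℝ → ℚ` not vanishing at any of the finitely many distances,
clear denominators, take floors, and pull a colouring of the integers back.
-/

namespace Pool.Agent.Results.MP_c23e02_co.UpperChromEq

open Set

/-- `T` is a `D`-coloring of `S`: inside colour class `j` no distance `D i j` occurs. -/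
def IsDColoring {k m : ℕ} (S : Set ℝ) (D : Fin k → Fin m → ℝ) (T : S → Fin m) : Prop :=
  ∀ (j : Fin m) (i : Fin k), ¬ ∃ x y : S, |(x : ℝ) - (y : ℝ)| = D i j ∧ T x = j ∧ T y = j

/-- `S` is `D`-colorable. -/
def IsDColorable {k m : ℕ} (S : Set ℝ) (D : Fin k → Fin m → ℝ) : Prop :=
  ∃ T : S → Fin m, IsDColoring S D T

/-- `m` colours suffice for every `k × m` array of positive reals. -/
def Suffices (k m : ℕ) (S : Set ℝ) : Prop :=
  ∀ D : Fin k → Fin m → ℝ, (∀ i j, 0 < D i j) → IsDColorable S D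

/-- The `k`-th upper chromatic number of `S`: the least positive integer `m` such that `S` is
`D`-colorable for every `k × m` array `D` of positive reals, and `⊤` if there is none. -/
noncomputable def upperChrom (k : ℕ) (S : Set ℝ) : ℕ∞ :=
  sInf {M : ℕ∞ | ∃ m : ℕ, 0 < m ∧ M = (m : ℕ∞) ∧ Suffices k m S}

/-- The integers as a subset of the real line. -/
def intSet : Set ℝ := Set.range ((↑) : ℤ → ℝ)

/-- A `ℚ`-linear functional on the reals taking nonzero integer values at the
members of a finite family of nonzero reals. -/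
lemma exists_functional {ι : Type*} [Finite ι] (v : ι → ℝ) (hv : ∀ i, v i ≠ 0) :
    ∃ (f : ℝ →ₗ[ℚ] ℚ) (a : ι → ℤ), ∀ i, f (v i) = a i ∧ a i ≠ 0 := by
  classical
  have _i : Fintype ι := Fintype.ofFinite ι
  obtain ⟨f, hf⟩ := Module.exists_dual_forall_apply_ne_zero (K := ℚ) v hv
  set N : ℕ := ∏ i, (f (v i)).den with hN
  have hN0 : N ≠ 0 := by
    rw [hN, Finset.prod_ne_zero_iff]
    intro i _
    exact (f (v i)).den_nz
  have hdiv : ∀ i, ∃ c : ℕ, N = (f (v i)).den * c := by
    intro i
    exact Finset.dvd_prod_of_mem (fun i => (f (v i)).den) (Finset.mem_univ i)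
  choose c hc using hdiv
  refine ⟨(N : ℚ) • f, fun i => (f (v i)).num * c i, fun i => ⟨?_, ?_⟩⟩
  · have h1 : ((f (v i)).den : ℚ) * f (v i) = (f (v i)).num := by
      rw [mul_comm]; exact Rat.mul_den_eq_num _
    rw [LinearMap.smul_apply, smul_eq_mul, hc i]
    push_cast
    rw [mul_comm ((f (v i)).den : ℚ) (c i : ℚ), mul_assoc, h1, mul_comm]
  · refine mul_ne_zero ?_ ?_
    · exact Rat.num_ne_zero.mpr (hf i)
    · intro h0
      have : c i = 0 := by exact_mod_cast h0
      apply hN0
      rw [hc i, this, mul_zero]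

/-- If `m` colours suffice for the integers, they suffice for the real line. -/
lemma suffices_real_of_int {k m : ℕ} (h : Suffices k m intSet) : Suffices k m univ := by
  intro D hD
  obtain ⟨f, a, hfa⟩ := exists_functional (fun p : Fin k × Fin m => D p.1 p.2)
    (fun p => (hD p.1 p.2).ne')
  obtain ⟨T, hT⟩ := h (fun i j => |((a (i, j) : ℤ) : ℝ)|) (fun i j => by
    rw [abs_pos]
    exact_mod_cast (hfa (i, j)).2)
  refine ⟨fun x => T ⟨((⌊f x⌋ : ℤ) : ℝ), ⟨_, rfl⟩⟩, ?_⟩
  rintro j i ⟨x, y, hxy, hx, hy⟩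
  refine hT j i ⟨_, _, ?_, hx, hy⟩
  have key : ∀ u w : ℝ, u - w = D i j → ⌊f u⌋ - ⌊f w⌋ = a (i, j) := by
    intro u w huw
    have h1 : f u = f w + (a (i, j) : ℤ) := by
      have h2 : f (u - w) = a (i, j) := by rw [huw]; exact (hfa (i, j)).1
      rw [map_sub] at h2
      linarith
    rw [h1, Int.floor_add_intCast]
    ring
  rcases le_total 0 ((x : ℝ) - y) with h0 | h0
  · rw [abs_of_nonneg h0] at hxy
    have := key _ _ hxy
    show |((⌊f (x : ℝ)⌋ : ℤ) : ℝ) - ((⌊f (y : ℝ)⌋ : ℤ) : ℝ)| = |((a (i, j) : ℤ) : ℝ)|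
    rw [← this]
    push_cast
    rfl
  · rw [abs_of_nonpos h0, neg_sub] at hxy
    have := key _ _ hxy
    show |((⌊f (x : ℝ)⌋ : ℤ) : ℝ) - ((⌊f (y : ℝ)⌋ : ℤ) : ℝ)| = |((a (i, j) : ℤ) : ℝ)|
    rw [← this, abs_sub_comm]
    push_cast
    rfl

/-- A coloring of a set restricts to a coloring of each subset. -/
lemma suffices_mono {k m : ℕ} {S S' : Set ℝ} (hSS : S ⊆ S') (h : Suffices k m S') :
    Suffices k m S := by
  intro D hD
  obtain ⟨T, hT⟩ := h D hD
  refine ⟨fun x => T ⟨x, hSS x.2⟩, ?_⟩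
  rintro j i ⟨x, y, hxy, hx, hy⟩
  exact hT j i ⟨_, _, hxy, hx, hy⟩

/-- **MP_c23e02.** For every positive integer `k` the `k`-th upper chromatic number of the
real line equals that of the integers. -/
theorem result : ∀ k : ℕ, 0 < k → upperChrom k (univ : Set ℝ) = upperChrom k intSet := by
  intro k _
  unfold upperChrom
  congr 1
  ext M
  constructor
  · rintro ⟨m, hm, hM, h⟩
    exact ⟨m, hm, hM, suffices_mono (subset_univ _) h⟩
  · rintro ⟨m, hm, hM, h⟩
    exact ⟨m, hm, hM, suffices_real_of_int h⟩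

end Pool.Agent.Results.MP_c23e02_co.UpperChromEq
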